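import Pool.Agent.MP_1246c0_nt.H25.SpecC

/-! Cocycles modulo two. -/

namespace Pool.Agent.MP_1246c0_nt.H25

open Finset Pool.Agent.MP_db5b97_nt.H85
open Pool.Agent.MP_1246c0_nt.H12

namespace DC1

variable {Q : Type} [AddCommGroup Q]

/-- crossed homomorphisms -/
structure Z (act : Ga → Module.End ℤ Q) (φ : Ga → Q) : Prop where
  coc : ∀ h h', φ (h * h') = φ h + act h (φ h')
  inv : ∃ U, Op U ∧ ∀ u ∈ U, φ u = 0

section

variable {act : Ga → Module.End ℤ Q} {φ φ' : Ga → Q} {Φ : Frm}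

theorem Z.one (h : Z act φ) : φ 1 = 0 := h.inv.elim fun U hU => hU.2 1 U.one_mem

theorem Z.add (z : Ax0) (h : Z act φ) (h' : Z act φ') : Z act fun g => φ g + φ' g := by
  obtain ⟨U, hU, hu⟩ := h.inv
  obtain ⟨V, hV, hv⟩ := h'.inv
  refine ⟨fun g g' => ?_, U ⊓ V, z.opi U V hU hV, fun u e => by rw [hu u e.1, hv u e.2, add_zero]⟩
  rw [h.coc, h'.coc, map_add]
  abel

theorem Z.sum (z : Ax0) {ι : Type} {φ : ι → Ga → Q} (h : ∀ i, Z act (φ i)) (s : Finset ι) :
    Z act fun g => ∑ i ∈ s, φ i g := by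
  classical
  induction s using Finset.induction_on with
  | empty => exact ⟨by simp, ⊤, z.opt, by simp⟩
  | insert i s hi ih => simpa only [sum_insert hi] using (h i).add z ih

theorem Z.ext (X : Ax1 Φ) (h : Z act φ) (h' : Z act φ')
    (hs : ∀ l, l.Prime → φ (Φ.sg l) = φ' (Φ.sg l)) (hf : φ (Φ.fr 2) = φ' (Φ.fr 2)) (g : Ga) :
    φ g = φ' g := by
  let H : Subgroup Ga :=
    { carrier := {g | φ g = φ' g}
      one_mem' := h.one.trans h'.one.symm
      mul_mem' := fun {a b} (ha : φ a = φ' a) (hb : φ b = φ' b) =>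
        show φ _ = φ' _ by rw [h.coc, h'.coc, ha, hb]
      inv_mem' := fun {a} (ha : φ a = φ' a) => by
        have h1 := h.coc a⁻¹ a
        have h2 := h'.coc a⁻¹ a
        rw [inv_mul_cancel, h.one, ha] at h1
        rw [inv_mul_cancel, h'.one] at h2
        exact add_right_cancel (h1.symm.trans h2) }
  obtain ⟨U, hU, hu⟩ := h.inv
  obtain ⟨V, hV, hv⟩ := h'.inv
  have hH : H = ⊤ := X.g (U ⊓ V) H (X.z.opi U V hU hV) (fun u e => (hu u e.1).trans (hv u e.2).symm)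
    hs ⟨Φ.fr 2, hf, X.v.kf1 1⟩
  exact (hH ▸ Subgroup.mem_top g : g ∈ H)

end

variable {S : Sy} {n m l : ℕ} {τ : Module.End ℤ Q} {x : Q}

theorem f_inv (X : Ax S) (hl : Gd n l) : ∃ U, Op U ∧ ∀ u ∈ U, S.f n l u = 0 := by
  obtain ⟨U, hU, hu⟩ := X.two.inv n l hl
  refine ⟨U, hU, fun u e => ((one_mul u).symm ▸ hu 1 u e : S.f n l u = _).trans (funext fun k => ?_)⟩
  have h1 := X.one.z.kmul n 1 1
  have h2 := X.two.coc n l 1 1 k hl
  rw [mul_one] at h1 h2
  rw [left_eq_add.1 h1, sub_zero] at h2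
  exact left_eq_add.1 h2

theorem prj (X : Ax S) {n' : ℕ} (hn : n ≤ n') (hl : Gd n' l) (h : Ga) : S.f n l h =
    fun k => ∑ k' : ZMod (2 ^ n'), if (k'.val : ZMod (2 ^ n)) = k then S.f n' l h k' else 0 := by
  have hl' : Gd n l := ⟨hl.1, hl.2.1, hn.trans hl.2.2⟩
  have hc : ∀ a b : ZMod (2 ^ n'), ((a + b).val : ZMod (2 ^ n)) = a.val + b.val := fun a b => by
    simpa only [ZMod.natCast_val] using ZMod.cast_add (pow_dvd_pow 2 hn) a b
  refine Z.ext (act := fun h => LinearMap.funLeft ℤ F2 fun k => k - kap n h) (φ' := fun h k =>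
    ∑ k' : ZMod (2 ^ n'), if (k'.val : ZMod (2 ^ n)) = k then S.f n' l h k' else 0) X.one
    ⟨fun g g' => funext fun k => X.two.coc n l g g' k hl', f_inv X hl'⟩
    ⟨fun g g' => funext fun k => ?_, (f_inv X hl).imp fun U e => ⟨e.1, fun u hu => ?_⟩⟩
    (fun l' h' => funext fun k => ?_) (funext fun k => ?_) h
  · simp only [X.two.coc n' l g g' _ hl, Pi.add_apply, LinearMap.funLeft_apply]
    rw [← Equiv.sum_comp (Equiv.subRight (kap n' g)) fun k' =>
      if (k'.val : ZMod (2 ^ n)) = k - kap n g then S.f n' l g' k' else 0, ← sum_add_distrib]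
    refine sum_congr rfl fun a _ => ?_
    have := hc (a - kap n' g) (kap n' g)
    rw [sub_add_cancel, ← X.one.z.kcomp n n' g hn] at this
    simp only [Equiv.subRight_apply, eq_sub_iff_add_eq, ← this]
    split_ifs <;> simp
  · simp [e.2 u hu, funext_iff]
  · rw [X.two.sg n l l' hl' h', X.two.sg n' l l' hl h']
    split_ifs
    · rw [sum_eq_single 0 (fun b _ hb => by simp [hb]) (by simp)]
      simp [Pi.single_apply, eq_comm]
    · simp
  · simp [X.two.fr2 n l hl', X.two.fr2 n' l hl]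

theorem sum_val {β : Type} [AddCommMonoid β] (N : ℕ) [NeZero N] (F : ℕ → β) :
    ∑ k : ZMod N, F k.val = ∑ i ∈ range N, F i := by
  obtain ⟨N, rfl⟩ := Nat.exists_eq_succ_of_ne_zero (NeZero.ne N)
  exact Fin.sum_univ_eq_sum_range F (N + 1)

theorem sum_fl {β : Type} [AddCommMonoid β] (F : F2 → ℕ → β) (h0 : ∀ k, F 0 k = 0) (h : Ga) :
    ∑ k, F (fl S n l h k) k.val = ∑ k, F (S.f (min (lev l) n) l h k) k.val := by
  have e := sum_val (2 ^ min (lev l) n) fun i => F (S.f (min (lev l) n) l h i) i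
  simp only [ZMod.natCast_zmod_val] at e
  rw [e]
  refine (sum_val (2 ^ n) fun i => F (if i < 2 ^ min (lev l) n then S.f (min (lev l) n) l h i
    else 0) i).trans ((sum_subset (range_subset_range.2 (Nat.pow_le_pow_right two_pos
      (min_le_right (lev l) n))) fun i _ hi => ?_).symm.trans (sum_congr rfl fun i hi => ?_))
  · rw [if_neg (mt mem_range.2 hi), h0]
  · rw [if_pos (mem_range.1 hi)]

theorem gd (hl : Gd 0 l) (n : ℕ) : Gd (min (lev l) n) l := ⟨hl.1, hl.2.1, min_le_left _ _⟩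

theorem chi_sg {Φ : Frm} (X : Ax1 Φ) (hl : l.Prime) :
    chi (-1) (Φ.sg l) = if l = 2 then 1 else 0 := by
  split_ifs with h
  · exact h ▸ X.v.cm.1
  · simp [X.v.csg l _ ⟨hl, h, Nat.zero_le _⟩ (by norm_num : (-1 : ℤ) ≠ 0), padicValInt]

theorem ch (X : Ax S) (hl : Gd 0 l) (h : Ga) :
    chi l h = ∑ k, fl S n l h k + eps l * chi (-1) h := by
  have ho := hl.1.odd_of_ne_two hl.2.1
  rw [sum_fl (fun a _ => a) fun _ => rfl]
  refine Z.ext (act := fun _ => 1) X.one ⟨X.one.z.cmul l, X.one.z.cop l⟩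
    (Z.add (φ := fun h => ∑ k, S.f (min (lev l) n) l h k) (φ' := fun h => eps l * chi (-1) h)
      X.one.z ⟨fun g g' => ?_, (f_inv X (gd hl n)).imp fun U e => ⟨e.1, fun u hu => ?_⟩⟩
      ⟨fun g g' => ?_, (X.one.z.cop (-1)).imp fun U e => ⟨e.1, fun u hu => ?_⟩⟩)
    (fun l' h' => ?_) ?_ h
  · simp only [X.two.coc _ l g g' _ (gd hl n), sum_add_distrib, Module.End.one_apply]
    rw [← Equiv.sum_comp (Equiv.subRight (kap _ g)) (S.f _ l g')]
    rfl
  · simp [e.2 u hu]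
  · rw [X.one.z.cmul, mul_add, Module.End.one_apply]
  · rw [e.2 u hu, mul_zero]
  · rw [X.two.sg _ l l' (gd hl n) h', chi_sg X.one h']
    by_cases h2 : l' = 2
    · simp [h2, hl.2.1.symm, (X.one.v.codd l ho).1]
    · have : Fact l'.Prime := ⟨h'⟩
      have : Fact l.Prime := ⟨hl.1⟩
      rw [X.one.v.csg l' l ⟨h', h2, Nat.zero_le _⟩ (by exact_mod_cast hl.1.ne_zero),
        padicValInt.of_nat, if_neg h2]
      split_ifs with h3
      · simp [h3]
      · simp [padicValNat_primes h3]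
  · simp [X.two.fr2 _ l (gd hl n), (X.one.v.codd l ho).2.1, X.one.v.cm.2.1]

theorem pow_fix {N : ℕ} (hx : (τ ^ N) x = x) {a b : ℕ} (h : a % N = b % N) :
    (τ ^ a) x = (τ ^ b) x := by
  have : ∀ a, (τ ^ a) x = (τ ^ (a % N)) x := fun a => by
    simp only [Module.End.pow_apply] at hx ⊢
    exact (Function.IsPeriodicPt.iterate_mod_apply hx a).symm
  rw [this a, this b, h]

theorem val_add (h2 : ∀ q : Q, 2 • q = 0) (a b : F2) (q : Q) :
    (a + b).val • q = a.val • q + b.val • q := by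
  rw [← add_nsmul, ZMod.val_add, ← nsmul_eq_mod_nsmul _ (h2 q)]

theorem shift (hx : (τ ^ 2 ^ m) x = x) (c : Co m) (j : ℕ) :
    (τ ^ j) (∑ k, (c k).val • (τ ^ k.val) x) = ∑ k, (c (k - j)).val • (τ ^ k.val) x := by
  rw [← Equiv.sum_comp (Equiv.addRight (j : ZMod (2 ^ m))) fun k => (c (k - j)).val • (τ ^ k.val) x,
    map_sum]
  refine sum_congr rfl fun k _ => ?_
  rw [map_nsmul, Equiv.coe_addRight, add_sub_cancel_right, ← Module.End.mul_apply, ← pow_add,
    pow_fix hx (b := (k + j).val) (by simp [ZMod.val_add, ZMod.val_natCast, add_comm])]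

theorem cw_fl (h : Ga) : cw τ (fl S n l h) x =
    ∑ k, (S.f (min (lev l) n) l h k).val • (τ ^ k.val) x := by
  rw [← sum_fl (fun a k => a.val • (τ ^ k) x) (by simp), cw, LinearMap.sum_apply]
  rfl

theorem gs_add (a b : ℕ) : gs τ (a + b) = gs τ a + τ ^ a * gs τ b := by
  simp only [gs, sum_range_add, mul_sum, pow_add]

theorem gs_val (h : gs τ (2 ^ n) = 0) (a : ℕ) : gs τ (a % 2 ^ n) = gs τ a := by
  have : ∀ q, gs τ (2 ^ n * q) = 0 := fun q => by
    induction q with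
    | zero => simp [gs]
    | succ q ih => rw [Nat.mul_succ, gs_add, ih, h, mul_zero, add_zero]
  conv_rhs => rw [← Nat.mod_add_div a (2 ^ n), gs_add, this, mul_zero, add_zero]

theorem unit {k : ℕ} (h2 : ∀ q : Q, 2 • q = 0) (hp : τ ^ 2 ^ n = 1) (hk : Odd k) :
    Function.Bijective (gs τ k) := by
  rw [← Module.End.isUnit_iff]
  nontriviality Module.End ℤ Q
  have := CharTwo.of_one_ne_zero_of_two_eq_zero (R := Module.End ℤ Q) one_ne_zero
    (LinearMap.ext fun q => by simpa using h2 q)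
  have e : gs τ k = ∑ i ∈ range k, (τ ^ i - 1) + 1 := by
    obtain ⟨j, rfl⟩ := hk
    simp [gs, CharTwo.two_eq_zero]
  rw [e]
  refine (Commute.isNilpotent_sum (fun i _ => ⟨2 ^ n, ?_⟩) fun i j _ _ => ?_).isUnit_add_one
  · rw [sub_pow_char_pow_of_commute _ _ (Commute.one_right _), ← pow_mul, mul_comm, pow_mul, hp]
    simp
  · exact ((Commute.pow_pow_self τ i j).sub_right (Commute.one_right _)).sub_left
      (Commute.one_left _)

variable {ι : Type} [Fintype ι] {pr : ι → ℕ} {P : ℕ} {i1 : ι} {y : ι → Q} {yt : Q}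

variable (S n τ pr y yt) in
/-- the model of a cocycle -/
noncomputable def md (q : Q) (h : Ga) : Q :=
  ∑ l, cw τ (fl S n (pr l) h) (y l) + (chi (-1) h).val • yt + gs τ (kap n h).val q

theorem md_Z (X : Ax S) (hL : Lb pr P i1) (h2 : ∀ q : Q, 2 • q = 0) (hg : gs τ (2 ^ n) = 0)
    (hy : ∀ l, (τ ^ 2 ^ min (lev (pr l)) n) (y l) = y l) (ht : τ yt = yt) (q : Q) :
    Z (fun h => τ ^ (kap n h).val) (md S n τ pr y yt q) := by
  have z := X.one.z
  refine ((Z.sum z (fun l => ⟨fun g g' => ?_, (f_inv X (gd (hL.odd l) n)).imp fun U e =>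
    ⟨e.1, fun u hu => ?_⟩⟩) _).add z ⟨fun g g' => ?_, (z.cop (-1)).imp fun U e =>
    ⟨e.1, fun u hu => ?_⟩⟩).add z ⟨fun g g' => ?_, (z.kop n).imp fun U e => ⟨e.1, fun u hu => ?_⟩⟩
  · simp only [cw_fl, shift (hy l), X.two.coc _ _ g g' _ (gd (hL.odd l) n), val_add h2,
      sum_add_distrib, z.kcomp _ n g (min_le_right _ _)]
  · simp [cw_fl, e.2 u hu]
  · rw [z.cmul, val_add h2, map_nsmul, Module.End.pow_apply, Function.iterate_fixed ht]
  · simp [e.2 u hu]
  · rw [z.kmul, ZMod.val_add, gs_val hg, gs_add]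
    rfl
  · simp [e.2 u hu, gs]

theorem md_sg (X : Ax S) (hL : Lb pr P i1) (q : Q) (hl : l.Prime) :
    md S n τ pr y yt q (S.Φ.sg l) =
      ∑ i, (if l = pr i then y i else 0) + if l = 2 then yt else 0 := by
  rw [md, X.one.v.ksg n l hl, chi_sg X.one hl, ZMod.val_zero, gs, sum_range_zero,
    LinearMap.zero_apply, add_zero]
  refine congrArg₂ _ (sum_congr rfl fun i _ => ?_) (by split_ifs <;> simp [ZMod.val_one])
  rw [cw_fl, X.two.sg _ _ l (gd (hL.odd i) n) hl]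
  split_ifs
  · rw [sum_eq_single 0 (fun b _ hb => by simp [hb]) (by simp)]
    simp [ZMod.val_one]
  · simp

theorem md_pr (X : Ax S) (hL : Lb pr P i1) (q : Q) (i : ι) :
    md S n τ pr y yt q (S.Φ.sg (pr i)) = y i := by
  classical
  simp [md_sg X hL q (hL.odd i).1, hL.inj.eq_iff, (hL.odd i).2.1]

theorem md_two (X : Ax S) (hL : Lb pr P i1) (q : Q) : md S n τ pr y yt q (S.Φ.sg 2) = yt := by
  simp [md_sg X hL q Nat.prime_two, fun i => (hL.odd i).2.1.symm]

theorem md_oth (X : Ax S) (hL : Lb pr P i1) (q : Q) (hl : l.Prime) (h : ∀ i, l ≠ pr i)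
    (h' : l ≠ 2) : md S n τ pr y yt q (S.Φ.sg l) = 0 := by simp [md_sg X hL q hl, h, h']

variable {M : Type} [AddCommGroup M] {T : Module.End ℤ M} {A : AddSubgroup M}

/-- passage to the quotient -/
structure Qu (T : Module.End ℤ M) (n : ℕ) (A : AddSubgroup M) (τ : Module.End ℤ (M ⧸ A)) :
    Prop where
  two : ∀ q : M ⧸ A, 2 • q = 0
  pw : τ ^ 2 ^ n = 1
  pow : ∀ k (x : M), (((T ^ k) x : M) : M ⧸ A) = (τ ^ k) x
  gs : ∀ k (x : M), ((gs T k x : M) : M ⧸ A) = gs τ k x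
  cw : ∀ (c : Co n) (x : M), ((cw T c x : M) : M ⧸ A) = cw τ c x
  acn : ∀ d h (x : M), ((acn d n T h x : M) : M ⧸ A) = (τ ^ (kap n h).val) x

theorem qu (h1 : Mu M 1 ≤ A) (hA : Ad T n A) : ∃ τ, Qu T n A τ := by
  let τ : Module.End ℤ (M ⧸ A) :=
    (QuotientAddGroup.map A A T.toAddMonoidHom fun x hx => hA.1 x hx).toIntLinearMap
  have hp : ∀ k (x : M), (((T ^ k) x : M) : M ⧸ A) = (τ ^ k) x := fun k x => by
    induction k with
    | zero => rfl
    | succ k ih => rw [pow_succ', pow_succ', Module.End.mul_apply, Module.End.mul_apply, ← ih]; rfl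
  have h2 : ∀ q : M ⧸ A, 2 • q = 0 := fun q => QuotientAddGroup.induction_on q fun x =>
    (QuotientAddGroup.eq_zero_iff (2 • x)).2 (h1 (mem_Mu.2 ⟨x, by rw [pow_one]⟩))
  refine ⟨τ, h2, LinearMap.ext fun q => QuotientAddGroup.induction_on q fun x =>
    (hp _ x).symm.trans (QuotientAddGroup.eq_iff_sub_mem.2 (hA.2 x)), hp, fun k x => ?_,
    fun c x => ?_, fun d h x => ?_⟩
  · simp only [gs, LinearMap.sum_apply, QuotientAddGroup.mk_sum, hp]
  · simp only [cw, LinearMap.sum_apply, QuotientAddGroup.mk_sum, LinearMap.smul_apply,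
      QuotientAddGroup.mk_nsmul, hp]
  · rcases neg_one_pow_eq_or (Module.End ℤ M) (chi d h).val with e | e <;> rw [acn, e]
    · rw [one_mul, hp]
    · rw [neg_one_mul, LinearMap.neg_apply, QuotientAddGroup.mk_neg, hp]
      exact neg_eq_of_add_eq_zero_left ((two_nsmul _).symm.trans (h2 _))

variable {σ : Module.End ℤ (M ⧸ A)}

theorem Qu.eo (q : Qu T n A σ) (d : ℕ) (ψ : Ga → M) (p : Ga × Ga) :
    Eo d n T ψ p ∈ A ↔ (σ ^ (kap n p.1).val) (ψ p.2) = ψ p.2 := by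
  rw [← QuotientAddGroup.eq_zero_iff, Eo, QuotientAddGroup.mk_sub, QuotientAddGroup.mk_sub,
    QuotientAddGroup.mk_nsmul, q.two, q.acn, zero_sub, neg_sub, sub_eq_zero]

theorem Qu.gs0 (q : Qu T n A σ) (h : ∀ x, H25.gs T (2 ^ n) x ∈ A) : H25.gs σ (2 ^ n) = 0 :=
  LinearMap.ext fun x => QuotientAddGroup.induction_on x fun x =>
    (q.gs _ x).symm.trans ((QuotientAddGroup.eq_zero_iff _).2 (h x))

theorem Qu.cast (q : Qu T n A σ) (k : ℕ) : σ ^ (k : ZMod (2 ^ n)).val = σ ^ k := by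
  rw [ZMod.val_natCast, ← pow_eq_pow_mod k q.pw]

theorem Qu.fr2 (q : Qu T n A σ) (X : Ax S) : σ ^ (kap n (S.Φ.fr 2)).val = σ := by
  rw [X.one.v.kf1, ← Nat.cast_one, q.cast, pow_one]

end DC1

open DC1 QuotientAddGroup in
theorem rowDC1 : OfDC1 := by
  intro _ _ hC
  have f2 : ∀ a : F2, a ≠ 1 → a = 0 := by decide
  refine ⟨fun S n n' l h k X hn hl => congrFun (prj X hn hl h) k, fun S n l h X hl => ch X hl h,
    fun ι M _ _ _ S pr P n i1 T A ψ X hL h1 hA hg c => ?_,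
    fun ι M _ _ _ S pr P n i1 T A x xt X hL h1 hA hg hx ht h4 => ?_, fun M _ n k T A h1 hA hk => ?_⟩
  · obtain ⟨σ, q⟩ := qu h1 hA
    obtain ⟨-, ho, -, -, -, -, -, -, -, -, -, -, lab⟩ := hC.lab ι S.Φ pr P i1 X.one hL
    have hy : ∀ l, (σ ^ 2 ^ min (lev (pr l)) n) (ψ (S.Φ.sg (pr l))) = ψ (S.Φ.sg (pr l)) := by
      intro l
      have e := (q.eo _ _ _).1 (hC.odd M _ _ P n _ T A ψ X.one hA c (hL.odd l)
        ((lab _ (hL.odd l).1).2 (.inr (.inl ⟨l, rfl⟩))))
      obtain ⟨o, h5, h6⟩ := X.one.v.kfr n _ (hL.odd l)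
      have e' : (σ ^ 2 ^ n) (ψ (S.Φ.sg (pr l))) = ψ (S.Φ.sg (pr l)) := by rw [q.pw]; rfl
      rw [h6, q.cast] at e
      have e3 : (2 ^ lev (pr l) * o).gcd (2 ^ n) = 2 ^ min (lev (pr l)) n := by
        rw [Nat.Coprime.gcd_mul_right_cancel _ (h5.coprime_two_right.pow_right n)]
        rcases le_total (lev (pr l)) n with h | h
        · rw [min_eq_left h, Nat.gcd_eq_left (pow_dvd_pow 2 h)]
        · rw [min_eq_right h, Nat.gcd_eq_right (pow_dvd_pow 2 h)]
      simp only [Module.End.pow_apply] at e e' ⊢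
      exact e3 ▸ Function.IsPeriodicPt.gcd e e'
    have ht : σ (ψ (S.Φ.sg 2)) = ψ (S.Φ.sg 2) := by
      by_cases h : dd pr P % 4 = 3
      · simpa only [q.fr2 X] using (q.eo _ _ _).1 (c.two h)
      · rw [(eq_zero_iff _).2 (c.unr 2 Nat.prime_two (.inl (by
          rw [(X.one.v.codd _ ho).1, eps, if_neg h]))), map_zero]
    refine ⟨fun l => eq_iff_sub_mem.1 ((q.pow _ _).trans (hy l)),
      eq_iff_sub_mem.1 (by simpa using (q.pow 1 _).trans ((pow_one σ).symm ▸ ht)),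
      fun h => eq_iff_sub_mem.1 ?_⟩
    simp only [mk_add, mk_sum, mk_nsmul, q.cw, q.gs]
    refine Z.ext (φ := fun h => (ψ h : M ⧸ A)) X.one ⟨fun g g' => ?_, c.inv.imp fun U e =>
      ⟨e.1, fun u hu => ?_⟩⟩ (md_Z X hL q.two (q.gs0 hg) hy ht _) (fun l hl => ?_) ?_ h
    · rw [← q.acn (dd pr P), ← mk_add, eq_iff_sub_mem, ← sub_sub]
      exact c.coc g g'
    · rw [← one_mul u, eq_iff_sub_mem.2 (e.2 1 u hu), eq_zero_iff]
      exact hC.one M _ _ P n T A ψ X.one.z c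
    · by_cases h5 : ∃ i, l = pr i
      · obtain ⟨i, rfl⟩ := h5
        rw [md_pr X hL]
      · by_cases h6 : l = 2
        · rw [h6, md_two X hL]
        · rw [md_oth X hL _ hl (not_exists.1 h5) h6, eq_zero_iff]
          refine c.unr l hl (or_iff_not_imp_right.2 fun h7 => f2 _ fun h8 => ?_)
          have := (lab l hl).1 h8
          tauto
    · rw [md, X.one.v.kf1, ← Nat.cast_one (R := ZMod _), ZMod.val_natCast, gs_val (q.gs0 hg)]
      simp [cw_fl, X.two.fr2 _ _ (gd (hL.odd _) n), X.one.v.cm.2.1, gs]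
  · obtain ⟨σ, q⟩ := qu h1 hA
    obtain ⟨-, ho, -, -, hP, h0, -, -, -, -, -, -, lab⟩ := hC.lab ι S.Φ pr P i1 X.one hL
    have hy : ∀ l, (σ ^ 2 ^ min (lev (pr l)) n) (x l) = x l := fun l =>
      (q.pow _ _).symm.trans (eq_iff_sub_mem.2 (hx l))
    have ht' : σ xt = xt := by
      simpa using (q.pow 1 xt).symm.trans (eq_iff_sub_mem.2 (by simpa using ht))
    obtain ⟨o, h5, h6⟩ := X.one.v.kfr n P hP
    obtain ⟨m, hm⟩ := (unit q.two q.pw h5).2 (-(∑ l, cw σ (fl S n (pr l) (S.Φ.fr P)) (x l) +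
      (chi (-1) (S.Φ.fr P)).val • (xt : M ⧸ A)))
    have z := md_Z X hL q.two (q.gs0 hg) hy ht' m
    obtain ⟨ψ, hψ⟩ : ∃ ψ : Ga → M, ∀ h, (ψ h : M ⧸ A) = md S n σ pr (fun l => x l) xt m h :=
      ⟨fun h => Quotient.out _, fun h => out_eq' _⟩
    refine ⟨ψ, ⟨fun g g' => ?_, z.inv.imp fun U e => ⟨e.1, fun g u hu => ?_⟩, fun l hl h => ?_, ?_,
      fun _ => ?_, ?_⟩, fun l => eq_iff_sub_mem.1 ((hψ _).trans (md_pr X hL m l)),
      eq_iff_sub_mem.1 ((hψ _).trans (md_two X hL m))⟩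
    · rw [sub_sub, ← eq_iff_sub_mem, mk_add, q.acn, hψ, hψ, hψ, z.coc]
    · rw [← eq_iff_sub_mem, hψ, hψ, z.coc, e.2 u hu, map_zero, add_zero]
    · rw [← eq_zero_iff, hψ]
      by_cases h7 : l = 2
      · have h8 := h.resolve_right fun e => hP.2.1 (e ▸ h7)
        have h9 : dd pr P % 4 ≠ 3 := fun e =>
          zero_ne_one (h8.symm.trans ((lab l hl).2 (.inr (.inr ⟨h7, e⟩))))
        rw [h7, md_two X hL, eq_zero_iff]
        exact h4 (by have := Nat.odd_iff.1 ho; omega)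
      · exact md_oth X hL m hl (fun i e => h.elim (fun h8 => zero_ne_one (h8.symm.trans
          ((lab l hl).2 (.inr (.inl ⟨i, e⟩))))) fun h8 => hL.ne i (e ▸ h8)) h7
    · rw [← eq_zero_iff, hψ, md, h6, h0, pow_zero, one_mul, ZMod.val_natCast, gs_val (q.gs0 hg), hm,
        add_neg_cancel]
    · rw [q.eo, q.fr2 X, hψ, md_two X hL, ht']
    · rw [q.eo, hψ, p4]
      split_ifs
      · simp only [md, X.one.v.kf2, X.one.v.cm.2.2.2.1, ZMod.val_zero, gs, sum_range_zero,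
          LinearMap.zero_apply, add_zero, zero_smul, map_sum, cw_fl, shift (hy _)]
        exact sum_congr rfl fun l _ => sum_congr rfl fun k _ => by
          rw [X.two.f2 _ _ _ k (gd (hL.odd l) n)]
      all_goals rw [z.one, map_zero]
  · obtain ⟨σ, q⟩ := qu h1 hA
    have u := unit q.two q.pw hk
    refine ⟨fun x hx => (eq_zero_iff x).1 (u.1 ?_), fun y => ?_⟩
    · rw [map_zero, ← q.gs, eq_zero_iff]
      exact hx
    · obtain ⟨x, hx⟩ := u.2 y
      obtain ⟨x, rfl⟩ := mk_surjective x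
      exact ⟨x, eq_iff_sub_mem.1 ((q.gs k x).trans hx)⟩

end Pool.Agent.MP_1246c0_nt.H25
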