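import Pool.Agent.MP_1246c0_nt.H25.SpecG

/-! Most points lie on many good cubes. -/

namespace Pool.Agent.MP_1246c0_nt.H25

open Finset Function
open Pool.Agent.MP_1246c0_nt.H12

namespace DEN

theorem ind_nonneg (p : Prop) : 0 ≤ ind p := by unfold ind; split_ifs <;> norm_num

theorem ind_mono {p q : Prop} (h : p → q) : ind p ≤ ind q := by
  by_cases hp : p
  · simp [ind, hp, h hp]
  · simpa [ind, hp] using ind_nonneg q

theorem card_eq {α : Type} [Fintype α] (p : α → Prop) :
    (Nat.card {x // p x} : ℝ) = ∑ x, ind (p x) := by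
  classical
  simp [ind, Fintype.card_subtype]

/-- many pairs have the same label -/
theorem pairs {Z : Type} [Fintype Z] {B : ℕ} (lam : Z → Fin B) (p : Z → Prop) :
    (∑ z, ind (p z)) ^ 2 ≤ B * ∑ z, ∑ z', ind (p z ∧ p z' ∧ lam z = lam z') := by
  have h := sq_sum_le_card_mul_sum_sq (s := univ) (f := fun b => ∑ z, ind (p z ∧ lam z = b))
  have e1 : ∑ b, ∑ z, ind (p z ∧ lam z = b) = ∑ z, ind (p z) := by
    rw [sum_comm]
    exact sum_congr rfl fun z _ => by by_cases hp : p z <;> simp [ind, hp]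
  have e2 : ∑ b, (∑ z, ind (p z ∧ lam z = b)) ^ 2 =
      ∑ z, ∑ z', ind (p z ∧ p z' ∧ lam z = lam z') := by
    simp only [sq, sum_mul_sum]
    rw [sum_comm]
    refine sum_congr rfl fun z _ => ?_
    rw [sum_comm]
    refine sum_congr rfl fun z' _ => ?_
    by_cases hp : p z <;> by_cases hp' : p z' <;> simp [ind, hp, hp', eq_comm]
  rwa [e1, e2, card_univ, Fintype.card_fin] at h

variable {D Z : Type} [DecidableEq D] {Y Y' : (D → Z) → Prop}
  {C : Finset D → (D → Z) → (D → Z) → Prop} {B : ℕ}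

theorem gf_mono (h : ∀ x, Y' x → Y x) {W : Finset D} {x0 x1 : D → Z} (g : Gf Y' C W x0 x1) :
    Gf Y C W x0 x1 := fun W' hW => ⟨h _ (g W' hW).1, (g W' hW).2⟩

theorem as_mono (h : ∀ x, Y' x → Y x) (A : As Y C B) : As Y' C B :=
  ⟨A.loc, A.emp, fun W o x0 x1 ho => (A.lab W o x0 x1 ho).imp fun _ e z z' g g' =>
    e z z' (gf_mono h g) (gf_mono h g')⟩

theorem step (A : As Y C B) {W : Finset D} {o : D} (ho : o ∉ W) (x0 x1 : D → Z) :
    ∃ lam : Z → Fin B, ∀ z z', Gf Y C W (update x0 o z) x1 ∧ Gf Y C W (update x0 o z') x1 ∧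
      lam z = lam z' → Gf Y C (insert o W) (update x0 o z) (update x1 o z') := by
  obtain ⟨lam, h⟩ := A.lab (insert o W) o x0 x1 (mem_insert_self o W)
  rw [erase_insert ho] at h
  refine ⟨lam, fun z z' ⟨g, g', e⟩ W' hW => ?_⟩
  by_cases h1 : o ∈ W'
  · refine ⟨?_, h z z' g g' e W' hW h1⟩
    convert (g' (W'.erase o) (subset_insert_iff.1 hW)).1 using 1
    funext i
    by_cases h2 : i = o
    · simp [h2, h1]
    · by_cases h3 : i ∈ W' <;> simp [h2, h3]
  · have h4 : ∀ i ∈ W', x1 i = update x1 o z' i := fun i hi =>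
      (update_of_ne (ne_of_mem_of_not_mem hi h1) _ _).symm
    have h5 := g W' ((subset_insert_iff_of_notMem h1).1 hW)
    exact ⟨piecewise_congr W' h4 (fun _ _ => rfl) ▸ h5.1, A.loc _ _ _ _ h4 h5.2⟩

variable [Fintype D] [Fintype Z]

theorem sum_update (o : D) (F : (D → Z) → ℝ) :
    ∑ x, ∑ z, F (update x o z) = Fintype.card Z * ∑ x, F x := by
  have h : Involutive fun p : (D → Z) × Z => (update p.1 o p.2, p.1 o) := fun p => by simp
  rw [← Fintype.sum_prod_type']
  refine (Equiv.sum_comp h.toPerm fun p => F p.1).trans ?_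
  simp [Fintype.sum_prod_type, mul_sum]

variable (Y C) in
/-- the number of good faces -/
noncomputable def N (W : Finset D) : ℝ := ∑ x0, ∑ x1, ind (Gf Y C W x0 x1)

theorem N_step [Nonempty Z] (A : As Y C B) {W : Finset D} {o : D} (ho : o ∉ W) :
    N Y C W ^ 2 ≤ (Fintype.card (D → Z) : ℝ) ^ 2 * (B * N Y C (insert o W)) := by
  have hZ : (0 : ℝ) < Fintype.card Z := by exact_mod_cast Fintype.card_pos
  have h := sq_sum_le_card_mul_sum_sq (s := univ)
    (f := fun p : (D → Z) × (D → Z) => ∑ z, ind (Gf Y C W (update p.1 o z) p.2))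
  have e1 : ∑ p : (D → Z) × (D → Z), ∑ z, ind (Gf Y C W (update p.1 o z) p.2) =
      Fintype.card Z * N Y C W := by
    rw [N, ← sum_update o, Fintype.sum_prod_type]
    exact sum_congr rfl fun _ _ => sum_comm
  have e2 : ∑ p : (D → Z) × (D → Z), ∑ z, ∑ z', ind (Gf Y C (insert o W) (update p.1 o z)
      (update p.2 o z')) = Fintype.card Z * (Fintype.card Z * N Y C (insert o W)) := by
    rw [N, mul_sum, ← sum_update o, Fintype.sum_prod_type]
    refine sum_congr rfl fun x0 _ => ?_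
    rw [sum_comm]
    exact sum_congr rfl fun z _ =>
      sum_update o fun x => ind (Gf Y C (insert o W) (update x0 o z) x)
  have h2 : ∑ p : (D → Z) × (D → Z), (∑ z, ind (Gf Y C W (update p.1 o z) p.2)) ^ 2 ≤
      B * (Fintype.card Z * (Fintype.card Z * N Y C (insert o W))) := by
    rw [← e2, mul_sum]
    refine sum_le_sum fun p _ => ?_
    obtain ⟨lam, hl⟩ := step A ho p.1 p.2
    exact (pairs lam _).trans (mul_le_mul_of_nonneg_left
      (sum_le_sum fun z _ => sum_le_sum fun z' _ => ind_mono (hl z z')) (Nat.cast_nonneg B))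
  rw [e1, card_univ, Fintype.card_prod, Nat.cast_mul, ← sq] at h
  refine le_of_mul_le_mul_left ?_ (mul_pos hZ hZ)
  have h3 := h.trans (mul_le_mul_of_nonneg_left h2 (sq_nonneg _))
  linarith

theorem N_ge [Nonempty Z] (A : As Y C B) {ρ : ℝ} (h0 : 0 ≤ ρ)
    (h : (B + 1) * ρ * Fintype.card (D → Z) ≤ ∑ x, ind (Y x)) (W : Finset D) :
    (B + 1) * ρ ^ 2 ^ W.card * (Fintype.card (D → Z) : ℝ) ^ 2 ≤ N Y C W := by
  have hX : (0 : ℝ) < Fintype.card (D → Z) := by exact_mod_cast Fintype.card_pos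
  induction W using Finset.induction_on with
  | empty =>
    have e : N Y C ∅ = (∑ x, ind (Y x)) * Fintype.card (D → Z) := by
      simp [N, Gf, A.emp, mul_sum, mul_comm]
    rw [e, card_empty, pow_zero, pow_one, sq, ← mul_assoc]
    exact mul_le_mul_of_nonneg_right h hX.le
  | insert o W ho ih =>
    have h1 := (pow_le_pow_left₀ (by positivity) ih 2).trans (N_step A ho)
    have h2 : 0 ≤ N Y C (insert o W) := sum_nonneg fun _ _ => sum_nonneg fun _ _ => ind_nonneg _
    rw [card_insert_of_notMem ho, pow_succ 2, pow_mul]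
    refine le_of_mul_le_mul_left ?_ (show (0 : ℝ) < (Fintype.card (D → Z) : ℝ) ^ 2 * (B + 1) by
      positivity)
    nlinarith [mul_nonneg (sq_nonneg (Fintype.card (D → Z) : ℝ)) h2]

end DEN

open DEN in
theorem rowDEN : SDEN := by
  intro d B η hη
  have hρ : 0 < min η 1 / (B + 1) := div_pos (lt_min hη one_pos) (by positivity)
  have hB : (1 : ℝ) ≤ B + 1 := le_add_of_nonneg_left (Nat.cast_nonneg B)
  refine ⟨(min η 1 / (B + 1)) ^ 2 ^ d, pow_pos hρ _, fun D Z _ _ _ _ Y C hd A => ?_⟩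
  generalize hδ : (min η 1 / (B + 1)) ^ 2 ^ d = δ
  have hX : (0 : ℝ) < Fintype.card (D → Z) := by exact_mod_cast Fintype.card_pos
  rw [card_eq, Nat.card_eq_fintype_card (α := D → Z)]
  by_contra hn
  have h1 := N_ge (as_mono (Y' := fun x1 => Y x1 ∧ (Nat.card {x0 // Gf Y C univ x0 x1} : ℝ) <
    δ * Fintype.card (D → Z)) (fun _ h => h.1) A) hρ.le (by
      rw [mul_div_cancel₀ _ (by positivity)]
      exact (mul_le_mul_of_nonneg_right (min_le_left _ _) hX.le).trans (not_le.1 hn).le) univ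
  have h2 : δ ≤ (B + 1) * (min η 1 / (B + 1)) ^ 2 ^ (univ : Finset D).card :=
    hδ ▸ (pow_le_pow_of_le_one hρ.le ((div_le_one (by positivity)).2 ((min_le_right _ _).trans hB))
      (Nat.pow_le_pow_right two_pos hd)).trans (le_mul_of_one_le_left (by positivity) hB)
  refine absurd ((mul_le_mul_of_nonneg_right h2 (sq_nonneg _)).trans h1) (not_le.2 ?_)
  rw [N, sum_comm]
  refine (sum_lt_sum_of_nonempty univ_nonempty (g := fun _ => δ * Fintype.card (D → Z))
    fun x1 _ => ?_).trans_eq (by simp; ring)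
  by_cases h : (Nat.card {x0 // Gf Y C univ x0 x1} : ℝ) < δ * Fintype.card (D → Z)
  · rw [card_eq] at h
    exact (sum_le_sum fun x0 _ => ind_mono (gf_mono fun _ h => h.1)).trans_lt h
  · refine (sum_eq_zero fun x0 _ => ?_).trans_lt (mul_pos (hδ ▸ pow_pos hρ _) hX)
    unfold ind
    exact if_neg fun g => h (by simpa using (g univ Subset.rfl).1.2)

end Pool.Agent.MP_1246c0_nt.H25
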