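import Pool.Agent.MP_1246c0_nt.H25.SpecU

/-! The theorem of the three circles. -/

namespace Pool.Agent.MP_1246c0_nt.H25

open Complex Complex.HadamardThreeLines Metric Set

theorem rowTRC : STRC := by
  intro G c r1 r2 r3 R M1 M3 h0 h12 h23 h13 hR hG b1 b3 z hz
  have h2 : 0 < r2 := h0.trans_le h12
  have h3 : 0 < r3 := h0.trans h13
  have hn : ∀ w : ℂ, dist (c + exp w) c = Real.exp w.re := fun w => by
    rw [dist_self_add_left, norm_exp]
  have hc : ∀ w : ℂ, w.re ≤ Real.log r3 → c + exp w ∈ closedBall c r3 := fun w h => by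
    rw [mem_closedBall, hn]
    exact (Real.le_log_iff_exp_le h3).1 h
  have hs : ∀ r, 0 < r → ∀ w ∈ re ⁻¹' {Real.log r}, c + exp w ∈ sphere c r := fun r h w e => by
    rw [mem_sphere, hn, show w.re = Real.log r from e, Real.exp_log h]
  have hz' : ‖z - c‖ = r2 := mem_sphere_iff_norm.1 hz
  have e : (log (z - c)).re = Real.log r2 := by rw [log_re, hz']
  obtain ⟨B, hB⟩ := (isCompact_closedBall c r3).exists_bound_of_continuousOn
    (hG.continuousOn.mono (closedBall_subset_ball hR))
  have h := norm_le_interp_of_mem_verticalClosedStrip' (f := fun w => G (c + exp w))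
    (z := log (z - c)) (Real.log_lt_log h0 h13)
    (show _ ∈ Icc _ _ from e ▸ ⟨Real.log_le_log h0 h12, Real.log_le_log h2 h23⟩)
    (DifferentiableOn.diffContOnCl (hG.comp (by fun_prop) fun w hw => closedBall_subset_ball hR
      (hc w (closure_minimal (fun _ h => h.2.le) (isClosed_le continuous_re continuous_const) hw))))
    ⟨B, by rintro _ ⟨w, hw, rfl⟩; exact hB _ (hc w hw.2)⟩
    (fun w e => b1 _ (hs _ h0 w e)) fun w e => b3 _ (hs _ h3 w e)
  rwa [exp_log (norm_pos_iff.1 (hz' ▸ h2)), add_sub_cancel, e, ← Real.log_div h2.ne' h0.ne',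
    ← Real.log_div h3.ne' h0.ne'] at h

end Pool.Agent.MP_1246c0_nt.H25
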